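import Pool.Agent.Lib.MJ29.CmpB

namespace Pool.Agent.Results.MP_099303_lc.Computable

open Pool.Agent.Lib.MP_099303_lc

theorem result : ∃ g : ℕ → ℕ, Primrec g ∧
    ∀ n : ℕ, |(g n : ℝ) / (n + 1) - cStar| ≤ 1 / (n + 1) :=
  Pool.Agent.Lib.MJ29.Cmp.computable

end Pool.Agent.Results.MP_099303_lc.Computable
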