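import Pool.Agent.Lib.MJ29.Expl

namespace Pool.Agent.Results.MP_099303_lc.Growth

open Pool.Agent.Lib.MP_099303_lc Pool.Agent.Lib.MJ29

theorem result : ∀ k : ℕ,
    RS (iterMaj k) ≤ ENNReal.ofReal (cStar ^ k) ∧
    ENNReal.ofReal (cStar ^ k) ≤ R (iterMaj k) ∧
    R (iterMaj k) ≤ 10 ^ 15000 * RS (iterMaj k) :=
  Expl.sandwich

end Pool.Agent.Results.MP_099303_lc.Growth
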