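import Pool.Agent.Lib.MP_099303_lc.Rows0
import Pool.Agent.Lib.MP_099303_lc.Rows1
import Pool.Agent.Lib.MP_099303_lc.Rows2
import Pool.Agent.Lib.MP_099303_lc.Rows3
import Pool.Agent.Lib.MP_099303_lc.Rows4
import Pool.Agent.Lib.MP_099303_lc.Rows5

namespace Pool.Agent.Results.MP_099303_lc.LowerBound

open Pool.Agent.Lib.MP_099303_lc

lemma rows : ∀ T3 < 46, Rng Ge Vs T3 0 (T3 + 1) := by
  intro T3 h
  interval_cases T3
  exacts [row0, row1, row2, row3, row4, row5, row6, row7, row8, row9, row10, row11,
    row12, row13, row14, row15, row16, row17, row18, row19, row20, row21, row22, row23,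
    row24, row25, row26, row27, row28, row29, row30, row31, row32, row33, row34, row35,
    row36, row37, row38, row39, row40, row41, row42, row43, row44, row45]

theorem result : (2.6493 : ℝ) ≤ cStar :=
  le_cStar (mkCert Ge_swap Ge_zero Ge_five Vs_rot Vs_swap Vs_root
    fun T3 h T2 h2 => rows T3 h T2 (Nat.zero_le _) (Nat.lt_succ_of_le h2)) (by norm_num)

end Pool.Agent.Results.MP_099303_lc.LowerBound
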