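import Pool.Agent.Lib.MP_099303_lc.UpF

namespace Pool.Agent.Results.MP_099303_lc.UpperBound

open Pool.Agent.Lib.MP_099303_lc

theorem result : cStar ≤ (2.6494381 : ℝ) := Up.T.cStar_le

end Pool.Agent.Results.MP_099303_lc.UpperBound
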